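import Mathlib

set_option autoImplicit false

open MeasureTheory Set Filter Topology Metric

namespace Pool.Agent.H714Q

/-- The bilinear form used in the convolution. -/
noncomputable def Lb : ℂ →L[ℝ] ℝ →L[ℝ] ℂ := (ContinuousLinearMap.lsmul ℝ ℝ).flip

/-- The Cauchy transform of a real function. -/
noncomputable def Cau (h : ℂ → ℝ) : ℂ → ℂ :=
  convolution (fun w : ℂ => w⁻¹) h Lb volume

theorem Cau_apply (h : ℂ → ℝ) (z : ℂ) : Cau h z = ∫ w, h (z - w) • w⁻¹ := by
  rfl

theorem integrableOn_inv_ball (r : ℝ) : IntegrableOn (fun w : ℂ => ‖w‖⁻¹) (ball 0 r) := by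
  have h := (integrableOn_fun_norm_addHaar (E := ℂ) (F := ℝ) volume (f := fun y => y⁻¹) (r := r))
  refine h.2 ?_
  have h1 : IntegrableOn (fun _ : ℝ => (1:ℝ)) (Ioo 0 r) := by
    simp [integrableOn_const_iff]
  refine h1.congr_fun ?_ measurableSet_Ioo
  intro x hx
  have : Module.finrank ℝ ℂ = 2 := Complex.finrank_real_complex
  simp only [this]
  have hx0 : x ≠ 0 := hx.1.ne'
  simp [hx0]

theorem locallyIntegrable_inv : LocallyIntegrable (fun w : ℂ => w⁻¹) := by
  rw [locallyIntegrable_iff]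
  intro k hk
  obtain ⟨r, hr⟩ := hk.isBounded.subset_ball 0
  refine IntegrableOn.mono_set ?_ hr
  refine (integrableOn_inv_ball r).mono' ?_ ?_
  · exact (measurable_inv).aestronglyMeasurable
  · refine Eventually.of_forall (fun w => ?_)
    simp

/-- The integral of the kernel over a small ball. -/
noncomputable def kap (r : ℝ) : ℝ := ∫ w in ball (0:ℂ) r, ‖w‖⁻¹

theorem kap_nonneg (r : ℝ) : 0 ≤ kap r := by
  unfold kap
  positivity

theorem exists_kap_small {ε : ℝ} (hε : 0 < ε) : ∃ r : ℝ, 0 < r ∧ kap r ≤ ε := by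
  have h := tendsto_setIntegral_of_antitone (μ := volume) (f := fun w : ℂ => ‖w‖⁻¹)
    (s := fun n : ℕ => ball (0:ℂ) (1 / ((n:ℝ) + 1))) (fun n => measurableSet_ball)
    (by
      intro m n hmn
      refine ball_subset_ball ?_
      have : (m:ℝ) ≤ n := by exact_mod_cast hmn
      exact one_div_le_one_div_of_le (by positivity) (by linarith))
    ⟨0, integrableOn_inv_ball _⟩
  have h0 : (∫ x in ⋂ n : ℕ, ball (0:ℂ) (1 / ((n:ℝ) + 1)), ‖x‖⁻¹) = 0 := by
    have : (⋂ n : ℕ, ball (0:ℂ) (1 / ((n:ℝ) + 1))) = {0} := by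
      ext z
      simp only [mem_iInter, mem_ball, dist_zero_right, mem_singleton_iff]
      constructor
      · intro hz
        by_contra hne
        have hpos : 0 < ‖z‖ := norm_pos_iff.2 hne
        obtain ⟨n, hn⟩ := exists_nat_one_div_lt hpos
        exact absurd (hz n) (not_lt.2 hn.le)
      · rintro rfl n
        simp
        positivity
    rw [this]
    simp
  rw [h0] at h
  have h2 := (h.eventually (gt_mem_nhds hε)).exists
  obtain ⟨n, hn⟩ := h2
  exact ⟨1 / ((n:ℝ) + 1), by positivity, hn.le⟩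

theorem Cau_bound {h : ℂ → ℝ} (hh : Integrable h) {M : ℝ} (hM : ∀ z, |h z| ≤ M)
    {r : ℝ} (hr : 0 < r) (z : ℂ) :
    ‖Cau h z‖ ≤ M * kap r + r⁻¹ * ∫ w, |h w| := by
  have hM0 : 0 ≤ M := (abs_nonneg _).trans (hM 0)
  rw [Cau_apply]
  refine (norm_integral_le_integral_norm _).trans ?_
  have hI : Integrable (fun w : ℂ => (ball (0:ℂ) r).indicator (fun w => ‖w‖⁻¹) w) :=
    (integrable_indicator_iff measurableSet_ball).2 (integrableOn_inv_ball r)
  have hJ : Integrable (fun w : ℂ => |h (z - w)|) := (hh.comp_sub_left z).abs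
  have hle : (∫ w : ℂ, ‖h (z - w) • w⁻¹‖) ≤
      ∫ w : ℂ, (M * (ball (0:ℂ) r).indicator (fun w => ‖w‖⁻¹) w + r⁻¹ * |h (z - w)|) := by
    refine integral_mono_of_nonneg (Eventually.of_forall fun w => norm_nonneg _)
      ((hI.const_mul M).add (hJ.const_mul _)) (Eventually.of_forall fun w => ?_)
    simp only [norm_smul, norm_inv, Real.norm_eq_abs]
    by_cases hw : w ∈ ball (0:ℂ) r
    · rw [indicator_of_mem hw]
      have h1 : |h (z - w)| * ‖w‖⁻¹ ≤ M * ‖w‖⁻¹ :=
        mul_le_mul_of_nonneg_right (hM _) (by positivity)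
      have h2 : 0 ≤ r⁻¹ * |h (z - w)| := by positivity
      linarith
    · rw [indicator_of_notMem hw]
      have hw' : r ≤ ‖w‖ := by simpa using hw
      have h1 : ‖w‖⁻¹ ≤ r⁻¹ := inv_anti₀ hr hw'
      have h2 : |h (z - w)| * ‖w‖⁻¹ ≤ |h (z - w)| * r⁻¹ :=
        mul_le_mul_of_nonneg_left h1 (abs_nonneg _)
      linarith
  refine hle.trans (le_of_eq ?_)
  rw [integral_add (hI.const_mul M) (hJ.const_mul _), integral_const_mul, integral_const_mul,
    integral_indicator measurableSet_ball, integral_sub_left_eq_self (fun w => |h w|) volume z]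
  rfl

theorem Cau_small {M ε : ℝ} (hM : 0 ≤ M) (hε : 0 < ε) :
    ∃ δ : ℝ, 0 < δ ∧ ∀ h : ℂ → ℝ, Integrable h → (∀ z, |h z| ≤ M) → (∫ w, |h w|) ≤ δ →
      ∀ z, ‖Cau h z‖ ≤ ε := by
  obtain ⟨r, hr, hk⟩ := exists_kap_small (ε := ε / 2 / (M + 1)) (by positivity)
  refine ⟨r * (ε / 2), by positivity, fun h hh hb hi z => ?_⟩
  refine (Cau_bound hh hb hr z).trans ?_
  have h1 : M * kap r ≤ ε / 2 := by
    calc M * kap r ≤ (M + 1) * kap r := mul_le_mul_of_nonneg_right (by linarith) (kap_nonneg r)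
      _ ≤ (M + 1) * (ε / 2 / (M + 1)) := mul_le_mul_of_nonneg_left hk (by linarith)
      _ = ε / 2 := by field_simp
  have h2 : r⁻¹ * ∫ w, |h w| ≤ ε / 2 := by
    calc r⁻¹ * ∫ w, |h w| ≤ r⁻¹ * (r * (ε / 2)) := mul_le_mul_of_nonneg_left hi (by positivity)
      _ = ε / 2 := by field_simp
  linarith

theorem Cau_sub {h k : ℂ → ℝ} (hh : Continuous h) (hhc : HasCompactSupport h)
    (hk : Continuous k) (hkc : HasCompactSupport k) (z : ℂ) :
    Cau (fun w => h w - k w) z = Cau h z - Cau k z := by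
  have e1 : Integrable (fun w : ℂ => h (z - w) • w⁻¹) :=
    hhc.convolutionExists_right Lb locallyIntegrable_inv hh z
  have e2 : Integrable (fun w : ℂ => k (z - w) • w⁻¹) :=
    hkc.convolutionExists_right Lb locallyIntegrable_inv hk z
  rw [Cau_apply, Cau_apply, Cau_apply, ← integral_sub e1 e2]
  congr 1
  ext w
  rw [sub_smul]

theorem hasFDerivAt_Cau {h : ℂ → ℝ} (hh : ContDiff ℝ 1 h) (hhc : HasCompactSupport h) (z : ℂ) :
    ∃ A : ℂ →L[ℝ] ℂ, HasFDerivAt (Cau h) A z ∧ ∀ v, A v = Cau (fun w => fderiv ℝ h w v) z := by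
  refine ⟨_, hhc.hasFDerivAt_convolution_right Lb locallyIntegrable_inv hh z, fun v => ?_⟩
  rw [convolution_precompR_apply Lb locallyIntegrable_inv (hhc.fderiv ℝ)
    (hh.continuous_fderiv one_ne_zero) z v]
  rfl

end Pool.Agent.H714Q
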