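import Mathlib
import Pool.Agent.H714Q.A

set_option autoImplicit false

open MeasureTheory Set Filter Topology Metric

namespace Pool.Agent.H714Q

/-- The point of the unit circle with angle `θ`. -/
noncomputable def E (θ : ℝ) : ℂ := (Real.cos θ : ℂ) + (Real.sin θ : ℂ) * Complex.I

theorem E_eq_smul (θ : ℝ) : E θ = (Real.cos θ) • (1:ℂ) + (Real.sin θ) • Complex.I := by
  simp [E]

theorem norm_E (θ : ℝ) : ‖E θ‖ = 1 := by
  have : E θ = Complex.exp (θ * Complex.I) := by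
    rw [Complex.exp_mul_I]; simp [E]
  rw [this, Complex.norm_exp_ofReal_mul_I]

theorem continuous_E : Continuous E := by
  unfold E
  fun_prop

theorem hasDerivAt_r {h : ℂ → ℝ} (hh : ContDiff ℝ 1 h) (z : ℂ) (θ r : ℝ) :
    HasDerivAt (fun r : ℝ => h (z - (r:ℂ) * E θ)) (-(fderiv ℝ h (z - (r:ℂ) * E θ) (E θ))) r := by
  have h1 : HasDerivAt (fun r : ℝ => z - (r:ℂ) * E θ) (-(E θ)) r := by
    have := ((Complex.ofRealCLM.hasDerivAt (x := r)).mul_const (E θ)).const_sub z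
    simpa using this
  have h2 := ((hh.differentiable one_ne_zero) (z - (r:ℂ) * E θ)).hasFDerivAt
  have := h2.comp_hasDerivAt r h1
  rw [map_neg] at this
  exact this

theorem hasDerivAt_t {h : ℂ → ℝ} (hh : ContDiff ℝ 1 h) (z : ℂ) (θ r : ℝ) :
    HasDerivAt (fun θ : ℝ => h (z - (r:ℂ) * E θ))
      (-(r * fderiv ℝ h (z - (r:ℂ) * E θ) ((-Real.sin θ) • (1:ℂ) + (Real.cos θ) • Complex.I))) θ := by
  have hE : HasDerivAt E ((-Real.sin θ) • (1:ℂ) + (Real.cos θ) • Complex.I) θ := by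
    have e1 := (Real.hasDerivAt_cos θ).smul_const (1:ℂ)
    have e2 := (Real.hasDerivAt_sin θ).smul_const (Complex.I)
    have e3 := e1.add e2
    refine e3.congr_of_eventuallyEq (Eventually.of_forall fun t => ?_)
    exact E_eq_smul t
  have h1 : HasDerivAt (fun θ : ℝ => z - (r:ℂ) * E θ)
      (-((r:ℂ) * ((-Real.sin θ) • (1:ℂ) + (Real.cos θ) • Complex.I))) θ := by
    exact (hE.const_mul (r:ℂ)).const_sub z
  have h2 := ((hh.differentiable one_ne_zero) (z - (r:ℂ) * E θ)).hasFDerivAt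
  have h3 := h2.comp_hasDerivAt θ h1
  have h4 : (-((r:ℂ) * ((-Real.sin θ) • (1:ℂ) + (Real.cos θ) • Complex.I)))
      = (-r) • ((-Real.sin θ) • (1:ℂ) + (Real.cos θ) • Complex.I) := by
    rw [← Complex.real_smul, neg_smul r]
  rw [h4, map_smul, neg_smul, smul_eq_mul] at h3
  exact h3

/-- radial part -/
noncomputable def X (h : ℂ → ℝ) (z : ℂ) (p : ℝ × ℝ) : ℝ :=
  fderiv ℝ h (z - (p.1:ℂ) * E p.2) (E p.2)

/-- angular part -/
noncomputable def Y (h : ℂ → ℝ) (z : ℂ) (p : ℝ × ℝ) : ℝ :=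
  fderiv ℝ h (z - (p.1:ℂ) * E p.2) ((-Real.sin p.2) • (1:ℂ) + (Real.cos p.2) • Complex.I)

theorem continuous_X {h : ℂ → ℝ} (hh : ContDiff ℝ 1 h) (z : ℂ) : Continuous (X h z) := by
  have h1 := hh.continuous_fderiv one_ne_zero
  have h2 : Continuous (fun p : ℝ × ℝ => E p.2) := continuous_E.comp continuous_snd
  unfold X
  exact (h1.comp (by fun_prop)).clm_apply h2

theorem continuous_Y {h : ℂ → ℝ} (hh : ContDiff ℝ 1 h) (z : ℂ) : Continuous (Y h z) := by
  have h1 := hh.continuous_fderiv one_ne_zero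
  have h2 : Continuous (fun p : ℝ × ℝ => E p.2) := continuous_E.comp continuous_snd
  unfold Y
  exact (h1.comp (by fun_prop)).clm_apply (by fun_prop)

theorem exists_R {h : ℂ → ℝ} (hhc : HasCompactSupport h) (z : ℂ) :
    ∃ R : ℝ, 0 < R ∧ ∀ r θ : ℝ, R < r → fderiv ℝ h (z - (r:ℂ) * E θ) = 0 := by
  obtain ⟨R, hR⟩ := (hhc.fderiv ℝ).isCompact.isBounded.subset_closedBall 0
  refine ⟨|R| + ‖z‖ + 1, by positivity, fun r θ hr => ?_⟩
  by_contra hne
  have h1 : z - (r:ℂ) * E θ ∈ tsupport (fderiv ℝ h) := subset_tsupport _ hne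
  have h2 := hR h1
  rw [mem_closedBall, dist_zero_right] at h2
  have h3 : ‖(r:ℂ) * E θ‖ = |r| := by
    rw [norm_mul, norm_E, mul_one, Complex.norm_real, Real.norm_eq_abs]
  have h4 : ‖(r:ℂ) * E θ‖ ≤ ‖z‖ + ‖z - (r:ℂ) * E θ‖ := by
    have : (r:ℂ) * E θ = z - (z - (r:ℂ) * E θ) := by ring
    calc ‖(r:ℂ) * E θ‖ = ‖z - (z - (r:ℂ) * E θ)‖ := by rw [← this]
      _ ≤ _ := norm_sub_le _ _
  have h5 : r ≤ |r| := le_abs_self r
  have h6 : R ≤ |R| := le_abs_self R
  linarith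

theorem integrableOn_of_cont {F : ℝ × ℝ → ℝ} (hF : Continuous F) {R : ℝ}
    (hR : ∀ r θ : ℝ, R < r → F (r, θ) = 0) :
    IntegrableOn F (Ioi (0:ℝ) ×ˢ Ioo (-Real.pi) Real.pi) := by
  have h1 : IntegrableOn F (Icc (0:ℝ) R ×ˢ Icc (-Real.pi) Real.pi) :=
    hF.continuousOn.integrableOn_compact (isCompact_Icc.prod isCompact_Icc)
  refine h1.of_forall_sdiff_eq_zero (measurableSet_Ioi.prod measurableSet_Ioo) ?_
  rintro ⟨r, θ⟩ ⟨h2, h3⟩
  have h4 : ¬ (r ≤ R) := by
    intro hle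
    exact h3 ⟨⟨(le_of_lt h2.1), hle⟩, ⟨h2.2.1.le, h2.2.2.le⟩⟩
  exact hR r θ (not_le.1 h4)

theorem integral_X {h : ℂ → ℝ} (hh : ContDiff ℝ 1 h) (hhc : HasCompactSupport h) (z : ℂ) :
    (∫ p in Ioi (0:ℝ) ×ˢ Ioo (-Real.pi) Real.pi, X h z p) = 2 * Real.pi * h z := by
  obtain ⟨R, hR0, hR⟩ := exists_R hhc z
  have hint : IntegrableOn (X h z) (Ioi (0:ℝ) ×ˢ Ioo (-Real.pi) Real.pi) :=
    integrableOn_of_cont (continuous_X hh z) (R := R) (by
      intro r θ hr
      simp [X, hR r θ hr])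
  have h1 : ∀ θ : ℝ, (∫ r in Ioi (0:ℝ), X h z (r, θ)) = h z := by
    intro θ
    have hd : ∀ r : ℝ, deriv (fun r : ℝ => h (z - (r:ℂ) * E θ)) r = - X h z (r, θ) :=
      fun r => (hasDerivAt_r hh z θ r).deriv
    have hcd : ContDiff ℝ 1 (fun r : ℝ => h (z - (r:ℂ) * E θ)) := by
      refine hh.comp ?_
      exact contDiff_const.sub (Complex.ofRealCLM.contDiff.mul contDiff_const)
    have hcs : HasCompactSupport (fun r : ℝ => h (z - (r:ℂ) * E θ)) := by
      obtain ⟨R', hR'⟩ := hhc.isCompact.isBounded.subset_closedBall 0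
      refine HasCompactSupport.of_support_subset_isCompact
        (isCompact_closedBall (0:ℝ) (R' + ‖z‖)) ?_
      intro r hr
      have h2 := hR' (subset_tsupport _ (show h (z - (r:ℂ) * E θ) ≠ 0 from hr))
      rw [mem_closedBall, dist_zero_right] at h2 ⊢
      have h3 : ‖(r:ℂ) * E θ‖ = ‖r‖ := by
        rw [norm_mul, norm_E, mul_one, Complex.norm_real]
      have h4 : ‖(r:ℂ) * E θ‖ ≤ ‖z‖ + ‖z - (r:ℂ) * E θ‖ := by
        have : (r:ℂ) * E θ = z - (z - (r:ℂ) * E θ) := by ring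
        calc ‖(r:ℂ) * E θ‖ = ‖z - (z - (r:ℂ) * E θ)‖ := by rw [← this]
          _ ≤ _ := norm_sub_le _ _
      linarith
    have h2 := HasCompactSupport.integral_Ioi_deriv_eq hcd hcs 0
    simp only [hd] at h2
    rw [integral_neg] at h2
    simp at h2
    exact h2
  rw [Measure.volume_eq_prod] at hint ⊢
  have hint2 : IntegrableOn (fun p : ℝ × ℝ => X h z p.swap)
      (Ioo (-Real.pi) Real.pi ×ˢ Ioi (0:ℝ)) (volume.prod volume) := by
    rw [IntegrableOn, ← Measure.prod_restrict]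
    rw [IntegrableOn, ← Measure.prod_restrict] at hint
    exact hint.swap
  rw [← setIntegral_prod_swap, setIntegral_prod _ hint2]
  simp only [Prod.swap]
  simp only [h1]
  simp
  left
  rw [max_eq_left (by linarith [Real.pi_pos])]
  ring

theorem integral_Y {h : ℂ → ℝ} (hh : ContDiff ℝ 1 h) (hhc : HasCompactSupport h) (z : ℂ) :
    (∫ p in Ioi (0:ℝ) ×ˢ Ioo (-Real.pi) Real.pi, Y h z p) = 0 := by
  obtain ⟨R, hR0, hR⟩ := exists_R hhc z
  have hint : IntegrableOn (Y h z) (Ioi (0:ℝ) ×ˢ Ioo (-Real.pi) Real.pi) :=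
    integrableOn_of_cont (continuous_Y hh z) (R := R) (by
      intro r θ hr
      simp [Y, hR r θ hr])
  rw [Measure.volume_eq_prod] at hint ⊢
  rw [setIntegral_prod _ hint]
  have h1 : ∀ r ∈ Ioi (0:ℝ), (∫ θ in Ioo (-Real.pi) Real.pi, Y h z (r, θ)) = 0 := by
    intro r hr
    have hr0 : (r:ℝ) ≠ 0 := (ne_of_gt hr)
    rw [← integral_Ioc_eq_integral_Ioo, ← intervalIntegral.integral_of_le (by linarith [Real.pi_pos])]
    have h2 : (∫ θ in (-Real.pi)..Real.pi, -(r * Y h z (r, θ))) = 0 := by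
      rw [intervalIntegral.integral_eq_sub_of_hasDerivAt (f := fun θ : ℝ => h (z - (r:ℂ) * E θ))
        (f' := fun θ : ℝ => -(r * Y h z (r, θ))) (fun θ _ => hasDerivAt_t hh z θ r)]
      · simp [E]
      · refine Continuous.intervalIntegrable ?_ _ _
        have := continuous_Y hh z
        have h3 : Continuous (fun θ : ℝ => Y h z (r, θ)) := this.comp (by fun_prop)
        exact (h3.const_mul r).neg
    rw [intervalIntegral.integral_neg, intervalIntegral.integral_const_mul, neg_eq_zero,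
      mul_eq_zero] at h2
    exact h2.resolve_left hr0
  rw [setIntegral_congr_fun measurableSet_Ioi h1]
  simp

theorem Cau_integrable {h : ℂ → ℝ} (hh : Continuous h) (hhc : HasCompactSupport h) (z : ℂ) :
    Integrable (fun w : ℂ => h (z - w) • w⁻¹) :=
  hhc.convolutionExists_right Lb locallyIntegrable_inv hh z

theorem cauchy_pompeiu {h : ℂ → ℝ} (hh : ContDiff ℝ 1 h) (hhc : HasCompactSupport h) (z : ℂ) :
    Cau (fun w => fderiv ℝ h w 1) z + Complex.I * Cau (fun w => fderiv ℝ h w Complex.I) z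
      = ((2 * Real.pi * h z : ℝ) : ℂ) := by
  obtain ⟨R, hR0, hR⟩ := exists_R hhc z
  have ca : Continuous (fun w => fderiv ℝ h w 1) :=
    (hh.continuous_fderiv one_ne_zero).clm_apply continuous_const
  have cb : Continuous (fun w => fderiv ℝ h w Complex.I) :=
    (hh.continuous_fderiv one_ne_zero).clm_apply continuous_const
  have sa : HasCompactSupport (fun w => fderiv ℝ h w 1) := hhc.fderiv_apply ℝ 1
  have sb : HasCompactSupport (fun w => fderiv ℝ h w Complex.I) := hhc.fderiv_apply ℝ Complex.I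
  have hIX : IntegrableOn (X h z) (Ioi (0:ℝ) ×ˢ Ioo (-Real.pi) Real.pi) :=
    integrableOn_of_cont (continuous_X hh z) (R := R) (by
      intro r θ hr
      simp [X, hR r θ hr])
  have hIY : IntegrableOn (Y h z) (Ioi (0:ℝ) ×ˢ Ioo (-Real.pi) Real.pi) :=
    integrableOn_of_cont (continuous_Y hh z) (R := R) (by
      intro r θ hr
      simp [Y, hR r θ hr])
  rw [Cau_apply, Cau_apply, ← integral_const_mul,
    ← integral_add (Cau_integrable ca sa z) ((Cau_integrable cb sb z).const_mul _),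
    ← Complex.integral_comp_polarCoord_symm]
  have hcongr : ∀ p ∈ polarCoord.target,
      p.1 • ((fderiv ℝ h (z - Complex.polarCoord.symm p) 1) • (Complex.polarCoord.symm p)⁻¹ +
        Complex.I * ((fderiv ℝ h (z - Complex.polarCoord.symm p) Complex.I) •
          (Complex.polarCoord.symm p)⁻¹)) = ((X h z p : ℝ) : ℂ) + Complex.I * ((Y h z p : ℝ) : ℂ) := by
    rintro ⟨r, θ⟩ ⟨hr, -⟩
    have hr : (0:ℝ) < r := hr
    have hr0 : (r:ℂ) ≠ 0 := by exact_mod_cast hr.ne'
    have hs : Complex.polarCoord.symm (r, θ) = (r:ℂ) * E θ := by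
      rw [Complex.polarCoord_symm_apply]; rfl
    rw [hs]
    simp only [X, Y]
    set T := fderiv ℝ h (z - (r:ℂ) * E θ) with hT
    have e1 : T (E θ) = Real.cos θ * T 1 + Real.sin θ * T Complex.I := by
      rw [E_eq_smul, map_add, map_smul, map_smul, smul_eq_mul, smul_eq_mul]
    have e2 : T ((-Real.sin θ) • (1:ℂ) + (Real.cos θ) • Complex.I)
        = -Real.sin θ * T 1 + Real.cos θ * T Complex.I := by
      rw [map_add, map_smul, map_smul, smul_eq_mul, smul_eq_mul]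
    rw [e1, e2]
    have hEinv : (E θ)⁻¹ = (Real.cos θ : ℂ) - (Real.sin θ : ℂ) * Complex.I := by
      have hprod : E θ * ((Real.cos θ : ℂ) - (Real.sin θ : ℂ) * Complex.I) = 1 := by
        unfold E
        have h1 : ((Real.cos θ : ℂ)) ^ 2 + ((Real.sin θ : ℂ)) ^ 2 = 1 := by
          have := Real.cos_sq_add_sin_sq θ
          exact_mod_cast this
        linear_combination h1 - ((Real.sin θ : ℂ)) ^ 2 * Complex.I_sq
      exact inv_eq_of_mul_eq_one_right hprod
    rw [mul_inv, hEinv]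
    simp only [Complex.real_smul]
    push_cast
    field_simp
    linear_combination (- (Complex.sin θ) * (T Complex.I : ℂ)) * Complex.I_sq
  rw [setIntegral_congr_fun (by
      exact polarCoord.open_target.measurableSet) hcongr]
  have ht : polarCoord.target = Ioi (0:ℝ) ×ˢ Ioo (-Real.pi) Real.pi := rfl
  rw [ht]
  have iX : IntegrableOn (fun p => ((X h z p : ℝ) : ℂ)) (Ioi (0:ℝ) ×ˢ Ioo (-Real.pi) Real.pi) :=
    hIX.ofReal
  have iY : IntegrableOn (fun p => Complex.I * ((Y h z p : ℝ) : ℂ))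
      (Ioi (0:ℝ) ×ˢ Ioo (-Real.pi) Real.pi) := (hIY.ofReal).const_mul _
  rw [integral_add iX iY, integral_const_mul, integral_complex_ofReal, integral_complex_ofReal,
    integral_X hh hhc z, integral_Y hh hhc z]
  simp

end Pool.Agent.H714Q
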