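import Mathlib
import Pool.Agent.H714Q.B

set_option autoImplicit false

open MeasureTheory Set Filter Topology Metric

namespace Pool.Agent.H714Q

/-- The functions used in the construction. -/
structure Good (h : ℂ → ℝ) : Prop where
  smooth : ContDiff ℝ 1 h
  supp : ∀ z, 2 < ‖z‖ → h z = 0
  nonneg : ∀ z, 0 ≤ h z
  le_one : ∀ z, h z ≤ 1

theorem Good.compact {h : ℂ → ℝ} (hg : Good h) : HasCompactSupport h := by
  refine HasCompactSupport.of_support_subset_isCompact (isCompact_closedBall (0:ℂ) 2) ?_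
  intro z hz
  rw [mem_closedBall, dist_zero_right]
  by_contra hcon
  exact hz (hg.supp z (not_le.1 hcon))

theorem Good.contD {h : ℂ → ℝ} (hg : Good h) (v : ℂ) : Continuous (fun w => fderiv ℝ h w v) :=
  (hg.smooth.continuous_fderiv one_ne_zero).clm_apply continuous_const

theorem Good.compactD {h : ℂ → ℝ} (hg : Good h) (v : ℂ) :
    HasCompactSupport (fun w => fderiv ℝ h w v) := hg.compact.fderiv_apply ℝ v

theorem null_re (q : ℝ) : volume {z : ℂ | z.re = q} = 0 := by
  have h := Complex.volume_preserving_equiv_real_prod.measure_preimage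
    (s := ({q} : Set ℝ) ×ˢ (univ : Set ℝ))
    ((measurableSet_singleton q).prod MeasurableSet.univ).nullMeasurableSet
  have h2 : Complex.measurableEquivRealProd ⁻¹' (({q} : Set ℝ) ×ˢ (univ : Set ℝ))
      = {z : ℂ | z.re = q} := by
    ext z
    simp [Complex.measurableEquivRealProd]
  rw [h2] at h
  rw [h, Measure.volume_eq_prod, Measure.prod_prod]
  simp

theorem null_im (q : ℝ) : volume {z : ℂ | z.im = q} = 0 := by
  have h := Complex.volume_preserving_equiv_real_prod.measure_preimage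
    (s := (univ : Set ℝ) ×ˢ ({q} : Set ℝ))
    (MeasurableSet.univ.prod (measurableSet_singleton q)).nullMeasurableSet
  have h2 : Complex.measurableEquivRealProd ⁻¹' ((univ : Set ℝ) ×ˢ ({q} : Set ℝ))
      = {z : ℂ | z.im = q} := by
    ext z
    simp [Complex.measurableEquivRealProd]
  rw [h2] at h
  rw [h, Measure.volume_eq_prod, Measure.prod_prod]
  simp

theorem thin {φ : ℂ → ℝ} (hφ : Continuous φ) (hc : HasCompactSupport φ) (ℓ : ℂ →L[ℝ] ℝ) (q : ℝ)
    (hnull : volume {z : ℂ | ℓ z = q} = 0) {ε : ℝ} (hε : 0 < ε) :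
    ∃ δ : ℝ, 0 < δ ∧ ∀ χ : ℂ → ℝ, Continuous χ → (∀ z, |χ z| ≤ 1) →
      (∀ z, δ ≤ |ℓ z - q| → χ z = 0) →
      (∀ z, ‖Cau (fun w => χ w * φ w) z‖ ≤ ε) ∧ (∫ w, |χ w * φ w|) ≤ ε := by
  obtain ⟨M, hM⟩ := hc.exists_bound_of_continuous hφ
  have hM0 : 0 ≤ M := (norm_nonneg _).trans (hM 0)
  obtain ⟨δ₁, hδ₁, hsm⟩ := Cau_small hM0 hε
  have hφi : Integrable φ := hφ.integrable_of_hasCompactSupport hc
  set s : ℕ → Set ℂ := fun n => {z | |ℓ z - q| < 1 / ((n:ℝ) + 1)} with hs
  have hsmeas : ∀ n, MeasurableSet (s n) := by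
    intro n
    have : IsOpen (s n) := isOpen_lt (by fun_prop) continuous_const
    exact this.measurableSet
  have h := tendsto_setIntegral_of_antitone (μ := volume) (f := fun w : ℂ => |φ w|)
    (s := s) hsmeas
    (by
      intro m n hmn z hz
      have h1 : (m:ℝ) ≤ n := by exact_mod_cast hmn
      have h2 : 1 / ((n:ℝ) + 1) ≤ 1 / ((m:ℝ) + 1) :=
        one_div_le_one_div_of_le (by positivity) (by linarith)
      have h3 : |ℓ z - q| < 1 / ((n:ℝ) + 1) := hz
      exact lt_of_lt_of_le h3 h2)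
    ⟨0, hφi.abs.integrableOn⟩
  have h0 : (∫ x in ⋂ n : ℕ, s n, |φ x|) = 0 := by
    have hsub : (⋂ n : ℕ, s n) ⊆ {z : ℂ | ℓ z = q} := by
      intro z hz
      by_contra hne
      have hpos : 0 < |ℓ z - q| := abs_pos.2 (sub_ne_zero.2 hne)
      obtain ⟨n, hn⟩ := exists_nat_one_div_lt hpos
      exact absurd (mem_iInter.1 hz n) (not_lt.2 hn.le)
    exact setIntegral_measure_zero _ (measure_mono_null hsub hnull)
  rw [h0] at h
  obtain ⟨n, hn⟩ := (h.eventually (gt_mem_nhds (show 0 < min δ₁ ε from lt_min hδ₁ hε))).exists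
  refine ⟨1 / ((n:ℝ) + 1), by positivity, fun χ hχ hχ1 hχ0 => ?_⟩
  have hci : Integrable (fun w => χ w * φ w) :=
    (hχ.mul hφ).integrable_of_hasCompactSupport hc.mul_left
  have hint : (∫ w, |χ w * φ w|) ≤ min δ₁ ε := by
    refine le_trans ?_ hn.le
    rw [← integral_indicator (hsmeas n)]
    refine integral_mono hci.abs ((integrable_indicator_iff (hsmeas n)).2
      hφi.abs.integrableOn) (fun w => ?_)
    by_cases hw : w ∈ s n
    · rw [indicator_of_mem hw]
      simp only [abs_mul]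
      exact mul_le_of_le_one_left (abs_nonneg _) (hχ1 w)
    · rw [indicator_of_notMem hw]
      have : χ w = 0 := hχ0 w (not_lt.1 hw)
      simp [this]
  refine ⟨fun z => hsm _ hci (fun w => ?_) (hint.trans (min_le_left _ _)) z,
    hint.trans (min_le_right _ _)⟩
  rw [abs_mul]
  have h1 : |φ w| ≤ M := hM w
  calc |χ w| * |φ w| ≤ 1 * |φ w| := mul_le_mul_of_nonneg_right (hχ1 w) (abs_nonneg _)
    _ ≤ M := by rw [one_mul]; exact h1

/-- The relation between two consecutive functions of the construction. -/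
structure Rel (ε : ℝ) (h h' : ℂ → ℝ) : Prop where
  le : ∀ z, h' z ≤ h z
  mass : (∫ z, h z) ≤ (∫ z, h' z) + ε
  dist : ∀ z, ‖Cau h z - Cau h' z‖ ≤ ε
  one : ∀ z, ‖Cau (fun w => fderiv ℝ h w 1) z - Cau (fun w => fderiv ℝ h' w 1) z‖ ≤
    2 * Real.pi * (h z - h' z) + ε
  eye : ∀ z, ‖Cau (fun w => fderiv ℝ h w Complex.I) z -
    Cau (fun w => fderiv ℝ h' w Complex.I) z‖ ≤ 2 * Real.pi * (h z - h' z) + ε

theorem Rel.trans {ε ε' : ℝ} {h h' h'' : ℂ → ℝ} (r : Rel ε h h') (s : Rel ε' h' h'') :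
    Rel (ε + ε') h h'' := by
  refine ⟨fun z => (s.le z).trans (r.le z), by linarith [r.mass, s.mass], fun z => ?_,
    fun z => ?_, fun z => ?_⟩
  · have := norm_sub_le_norm_sub_add_norm_sub (Cau h z) (Cau h' z) (Cau h'' z)
    linarith [r.dist z, s.dist z]
  · have := norm_sub_le_norm_sub_add_norm_sub (Cau (fun w => fderiv ℝ h w 1) z)
      (Cau (fun w => fderiv ℝ h' w 1) z) (Cau (fun w => fderiv ℝ h'' w 1) z)
    linarith [r.one z, s.one z]
  · have := norm_sub_le_norm_sub_add_norm_sub (Cau (fun w => fderiv ℝ h w Complex.I) z)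
      (Cau (fun w => fderiv ℝ h' w Complex.I) z) (Cau (fun w => fderiv ℝ h'' w Complex.I) z)
    linarith [r.eye z, s.eye z]

theorem cut {h : ℂ → ℝ} (hg : Good h) (ℓ : ℂ →L[ℝ] ℝ) (q : ℝ)
    (hnull : volume {z : ℂ | ℓ z = q} = 0) {v : ℂ} (hv : ℓ v = 0)
    (hvv : v = 1 ∨ v = Complex.I) {ε : ℝ} (hε : 0 < ε) :
    ∃ h' : ℂ → ℝ, Good h' ∧ Rel ε h h' ∧ ∃ δ : ℝ, 0 < δ ∧ ∀ z, |ℓ z - q| < δ → h' z = 0 := by
  obtain ⟨δ₁, hδ₁, H1⟩ := thin hg.smooth.continuous hg.compact ℓ q hnull hε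
  obtain ⟨δ₂, hδ₂, H2⟩ := thin (hg.contD v) (hg.compactD v) ℓ q hnull hε
  set δ := min δ₁ δ₂ with hδdef
  have hδ : 0 < δ := lt_min hδ₁ hδ₂
  let ψ : ContDiffBump q := ⟨δ / 3, δ / 2, by positivity, by linarith⟩
  set χ : ℂ → ℝ := fun z => ψ (ℓ z) with hχdef
  have hχd : ContDiff ℝ 1 χ := ψ.contDiff.comp ℓ.contDiff
  have hχ1 : ∀ z, |χ z| ≤ 1 := fun z => by
    rw [abs_of_nonneg ψ.nonneg]; exact ψ.le_one
  have hχ0 : ∀ z, δ ≤ |ℓ z - q| → χ z = 0 := fun z hz => by
    refine ψ.zero_of_le_dist ?_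
    rw [Real.dist_eq]
    have : ψ.rOut = δ / 2 := rfl
    rw [this]
    linarith
  obtain ⟨H1a, H1b⟩ := H1 χ hχd.continuous hχ1 (fun z hz => hχ0 z ((min_le_left _ _).trans hz))
  obtain ⟨H2a, H2b⟩ := H2 χ hχd.continuous hχ1 (fun z hz => hχ0 z ((min_le_right _ _).trans hz))
  set h' : ℂ → ℝ := fun z => h z - χ z * h z with hh'
  have hχnn : ∀ z, 0 ≤ χ z := fun z => ψ.nonneg
  have hχle : ∀ z, χ z ≤ 1 := fun z => ψ.le_one
  have hg' : Good h' := by
    refine ⟨hg.smooth.sub (hχd.mul hg.smooth), fun z hz => ?_, fun z => ?_, fun z => ?_⟩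
    · simp only [hh', hg.supp z hz]; ring
    · simp only [hh']
      nlinarith [hg.nonneg z, hχle z]
    · simp only [hh']
      nlinarith [hg.nonneg z, hg.le_one z, hχnn z]
  have hle : ∀ z, h' z ≤ h z := fun z => by
    simp only [hh']
    nlinarith [hg.nonneg z, hχnn z]
  -- derivative in direction v
  have hDv : ∀ w, fderiv ℝ h w v - fderiv ℝ h' w v = χ w * fderiv ℝ h w v := by
    intro w
    have d1 : HasFDerivAt h (fderiv ℝ h w) w :=
      (hg.smooth.differentiable one_ne_zero w).hasFDerivAt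
    have dψ : HasFDerivAt (fun t : ℝ => ψ t) (fderiv ℝ (fun t : ℝ => ψ t) (ℓ w)) (ℓ w) :=
      ((ψ.contDiff (n := 1)).differentiable one_ne_zero (ℓ w)).hasFDerivAt
    have d2 : HasFDerivAt χ ((fderiv ℝ (fun t : ℝ => ψ t) (ℓ w)).comp ℓ) w :=
      dψ.comp w ℓ.hasFDerivAt
    have d3 := d1.sub (d2.mul d1)
    have d4 : fderiv ℝ h' w = _ := d3.fderiv
    rw [d4]
    simp [hv]
  have hkey : ∀ z, ‖Cau (fun w => fderiv ℝ h w v) z - Cau (fun w => fderiv ℝ h' w v) z‖ ≤ ε := by
    intro z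
    rw [← Cau_sub (hg.contD v) (hg.compactD v) (hg'.contD v) (hg'.compactD v) z]
    have : (fun w => fderiv ℝ h w v - fderiv ℝ h' w v) = fun w => χ w * fderiv ℝ h w v :=
      funext hDv
    rw [this]
    exact H2a z
  have hcp : ∀ z, (Cau (fun w => fderiv ℝ h w 1) z - Cau (fun w => fderiv ℝ h' w 1) z) +
      Complex.I * (Cau (fun w => fderiv ℝ h w Complex.I) z -
        Cau (fun w => fderiv ℝ h' w Complex.I) z) = ((2 * Real.pi * (h z - h' z) : ℝ) : ℂ) := by
    intro z
    have e1 := cauchy_pompeiu hg.smooth hg.compact z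
    have e2 := cauchy_pompeiu hg'.smooth hg'.compact z
    have e3 : ((2 * Real.pi * (h z - h' z) : ℝ) : ℂ) = ((2 * Real.pi * h z : ℝ) : ℂ) -
      ((2 * Real.pi * h' z : ℝ) : ℂ) := by push_cast; ring
    rw [e3, ← e1, ← e2]
    ring
  have hnn : ∀ z, 0 ≤ 2 * Real.pi * (h z - h' z) := fun z =>
    mul_nonneg (by positivity) (by linarith [hle z])
  refine ⟨h', hg', ⟨hle, ?_, ?_, ?_, ?_⟩, δ / 3, by positivity, ?_⟩
  · have i1 : Integrable h := hg.smooth.continuous.integrable_of_hasCompactSupport hg.compact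
    have i2 : Integrable h' := hg'.smooth.continuous.integrable_of_hasCompactSupport hg'.compact
    have i3 : Integrable (fun w => χ w * h w) :=
      (hχd.continuous.mul hg.smooth.continuous).integrable_of_hasCompactSupport hg.compact.mul_left
    have e1 : (∫ z, h z) = (∫ z, h' z) + ∫ z, χ z * h z := by
      rw [← integral_add i2 i3]
      congr 1
      ext z
      simp only [hh']; ring
    have e2 : (∫ z, χ z * h z) ≤ ∫ z, |χ z * h z| :=
      integral_mono i3 i3.abs (fun z => le_abs_self _)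
    linarith
  · intro z
    rw [← Cau_sub hg.smooth.continuous hg.compact hg'.smooth.continuous hg'.compact z]
    have : (fun w => h w - h' w) = fun w => χ w * h w := by
      ext w; simp only [hh']; ring
    rw [this]
    exact H1a z
  · intro z
    rcases hvv with rfl | rfl
    · linarith [hkey z, hnn z]
    · have e := hcp z
      have e' : Cau (fun w => fderiv ℝ h w 1) z - Cau (fun w => fderiv ℝ h' w 1) z =
          ((2 * Real.pi * (h z - h' z) : ℝ) : ℂ) -
          Complex.I * (Cau (fun w => fderiv ℝ h w Complex.I) z -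
            Cau (fun w => fderiv ℝ h' w Complex.I) z) := by
        rw [← e]; ring
      rw [e']
      refine (norm_sub_le _ _).trans ?_
      rw [norm_mul, Complex.norm_I, one_mul, Complex.norm_real, Real.norm_eq_abs,
        abs_of_nonneg (hnn z)]
      linarith [hkey z]
  · intro z
    rcases hvv with rfl | rfl
    · have e := hcp z
      have e' : Complex.I * (Cau (fun w => fderiv ℝ h w Complex.I) z -
            Cau (fun w => fderiv ℝ h' w Complex.I) z) =
          ((2 * Real.pi * (h z - h' z) : ℝ) : ℂ) -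
          (Cau (fun w => fderiv ℝ h w 1) z - Cau (fun w => fderiv ℝ h' w 1) z) := by
        rw [← e]; ring
      have e2 : ‖Cau (fun w => fderiv ℝ h w Complex.I) z -
            Cau (fun w => fderiv ℝ h' w Complex.I) z‖ =
          ‖Complex.I * (Cau (fun w => fderiv ℝ h w Complex.I) z -
            Cau (fun w => fderiv ℝ h' w Complex.I) z)‖ := by
        rw [norm_mul, Complex.norm_I, one_mul]
      rw [e2, e']
      refine (norm_sub_le _ _).trans ?_
      rw [Complex.norm_real, Real.norm_eq_abs, abs_of_nonneg (hnn z)]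
      linarith [hkey z]
    · linarith [hkey z, hnn z]
  · intro z hz
    have : χ z = 1 := by
      refine ψ.one_of_mem_closedBall ?_
      rw [mem_closedBall, Real.dist_eq]
      exact hz.le
    simp only [hh', this]; ring

theorem step {h : ℂ → ℝ} (hg : Good h) (q : ℝ) {ε : ℝ} (hε : 0 < ε) :
    ∃ h' : ℂ → ℝ, Good h' ∧ Rel ε h h' ∧ ∃ δ : ℝ, 0 < δ ∧
      ∀ z : ℂ, (|z.re - q| < δ ∨ |z.im - q| < δ) → h' z = 0 := by
  obtain ⟨h₁, g₁, r₁, δ₁, hδ₁, H₁⟩ := cut hg Complex.reCLM q (null_re q) (v := Complex.I)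
    (by simp) (Or.inr rfl) (half_pos hε)
  obtain ⟨h₂, g₂, r₂, δ₂, hδ₂, H₂⟩ := cut g₁ Complex.imCLM q (null_im q) (v := 1)
    (by simp) (Or.inl rfl) (half_pos hε)
  refine ⟨h₂, g₂, ?_, min δ₁ δ₂, lt_min hδ₁ hδ₂, ?_⟩
  · have := r₁.trans r₂
    rwa [add_halves] at this
  · intro z hz
    rcases hz with hz | hz
    · have h1 : h₁ z = 0 := H₁ z (lt_of_lt_of_le hz (min_le_left _ _))
      have h2 := r₂.le z
      have h3 := g₂.nonneg z
      linarith
    · exact H₂ z (lt_of_lt_of_le hz (min_le_right _ _))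

end Pool.Agent.H714Q
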