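import Mathlib
import Pool.Agent.H714Q.C

set_option autoImplicit false

open MeasureTheory Set Filter Topology Metric

namespace Pool.Agent.H714Q

theorem Good.integrable {h : ℂ → ℝ} (hg : Good h) : Integrable h :=
  hg.smooth.continuous.integrable_of_hasCompactSupport hg.compact

theorem bound_of_compact {φ : ℂ → ℝ} (hφ : Continuous φ) (hc : HasCompactSupport φ) :
    ∃ A : ℝ, ∀ z, ‖Cau φ z‖ ≤ A := by
  obtain ⟨M, hM⟩ := hc.exists_bound_of_continuous hφ
  exact ⟨_, fun z => Cau_bound (hφ.integrable_of_hasCompactSupport hc) hM one_pos z⟩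

theorem lip_of_bounds {h : ℂ → ℝ} (hg : Good h) {L : ℝ}
    (h1 : ∀ z, ‖Cau (fun w => fderiv ℝ h w 1) z‖ ≤ L)
    (h2 : ∀ z, ‖Cau (fun w => fderiv ℝ h w Complex.I) z‖ ≤ L) (z w : ℂ) :
    ‖Cau h z - Cau h w‖ ≤ 2 * L * ‖z - w‖ := by
  have hL : 0 ≤ L := (norm_nonneg _).trans (h1 0)
  choose A hA hAv using fun z => hasFDerivAt_Cau hg.smooth hg.compact z
  refine Convex.norm_image_sub_le_of_norm_hasFDerivWithin_le (𝕜 := ℝ) (f' := A) (s := univ)
    (fun x _ => (hA x).hasFDerivWithinAt) (fun x _ => ?_) convex_univ (mem_univ w) (mem_univ z)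
  refine ContinuousLinearMap.opNorm_le_bound _ (by positivity) (fun v => ?_)
  have hv : v = v.re • (1:ℂ) + v.im • Complex.I := by
    simp
  have e : A x v = v.re • A x 1 + v.im • A x Complex.I := by
    conv_lhs => rw [hv]
    rw [map_add, map_smul, map_smul]
  rw [e, hAv, hAv]
  refine (norm_add_le _ _).trans ?_
  rw [norm_smul, norm_smul, Real.norm_eq_abs, Real.norm_eq_abs]
  have e1 : |v.re| ≤ ‖v‖ := Complex.abs_re_le_norm v
  have e2 : |v.im| ≤ ‖v‖ := Complex.abs_im_le_norm v
  have e3 : |v.re| * ‖Cau (fun w => fderiv ℝ h w 1) x‖ ≤ ‖v‖ * L :=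
    mul_le_mul e1 (h1 x) (norm_nonneg _) (norm_nonneg _)
  have e4 : |v.im| * ‖Cau (fun w => fderiv ℝ h w Complex.I) x‖ ≤ ‖v‖ * L :=
    mul_le_mul e2 (h2 x) (norm_nonneg _) (norm_nonneg _)
  linarith

theorem diff_at {h : ℂ → ℝ} (hg : Good h) {z : ℂ} (hz : h z = 0) :
    DifferentiableAt ℂ (Cau h) z := by
  obtain ⟨A, hA, hAv⟩ := hasFDerivAt_Cau hg.smooth hg.compact z
  have hcp := cauchy_pompeiu hg.smooth hg.compact z
  rw [hz, ← hAv, ← hAv] at hcp
  have hcp' : A Complex.I = Complex.I * A 1 := by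
    have h1 : A 1 + Complex.I * A Complex.I = 0 := by
      rw [hcp]; simp
    have h2 : Complex.I * (A 1 + Complex.I * A Complex.I) = 0 := by rw [h1, mul_zero]
    linear_combination -h2 + (A Complex.I) * Complex.I_sq
  have hF : HasFDerivAt (𝕜 := ℂ) (Cau h) ((1 : ℂ →L[ℂ] ℂ).smulRight (A 1)) z := by
    refine hasFDerivAt_of_restrictScalars ℝ hA ?_
    ext v
    have hv : v = v.re • (1:ℂ) + v.im • Complex.I := by simp
    have e : A v = v.re • A 1 + v.im • A Complex.I := by
      conv_lhs => rw [hv]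
      rw [map_add, map_smul, map_smul]
    rw [e, hcp']
    have e2 : v = (v.re : ℂ) + (v.im : ℂ) * Complex.I := (Complex.re_add_im v).symm
    simp only [ContinuousLinearMap.coe_restrictScalars', ContinuousLinearMap.smulRight_apply,
      one_apply_eq_self, smul_eq_mul, Complex.real_smul]
    conv_lhs => rw [e2]
    ring
  exact hF.differentiableAt

theorem re_pos {h : ℂ → ℝ} (hg : Good h) : (1 / 25) * (∫ w, h w) ≤ (Cau h 3).re := by
  have hI := Cau_integrable hg.smooth.continuous hg.compact 3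
  have e1 : (Cau h 3).re = ∫ w, h (3 - w) * (w⁻¹).re := by
    rw [Cau_apply]
    have := (Complex.reCLM.integral_comp_comm hI).symm
    simp only [Complex.reCLM_apply] at this
    rw [this]
    congr 1
    ext w
    simp
  have e2 : (∫ w, h w) = ∫ w, h (3 - w) := (integral_sub_left_eq_self h volume 3).symm
  rw [e1, e2, ← integral_const_mul]
  have hI2 : Integrable (fun w : ℂ => h (3 - w) * (w⁻¹).re) := by
    have := hI.re
    refine this.congr (Eventually.of_forall fun w => ?_)
    simp
  refine integral_mono ((hg.integrable.comp_sub_left 3).const_mul _) hI2 (fun w => ?_)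
  simp only
  by_cases hw : h (3 - w) = 0
  · simp [hw]
  · have hn : ‖3 - w‖ ≤ 2 := by
      by_contra hcon
      exact hw (hg.supp _ (not_le.1 hcon))
    have h1 : |(3 - w).re| ≤ 2 := (Complex.abs_re_le_norm _).trans hn
    have h2 : (1:ℝ) ≤ w.re := by
      have := (abs_le.1 h1).2
      simp at this
      linarith
    have h3 : ‖w‖ ≤ 5 := by
      have : w = 3 - (3 - w) := by ring
      calc ‖w‖ = ‖3 - (3 - w)‖ := by rw [← this]
        _ ≤ ‖(3:ℂ)‖ + ‖3 - w‖ := norm_sub_le _ _
        _ ≤ 3 + 2 := by simp; exact hn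
        _ = 5 := by norm_num
    have h4 : Complex.normSq w ≤ 25 := by
      rw [Complex.normSq_eq_norm_sq]
      nlinarith [norm_nonneg w]
    have h5 : 0 < Complex.normSq w := by
      rw [Complex.normSq_apply]
      nlinarith [mul_self_nonneg w.im]
    have h6 : (1 / 25 : ℝ) ≤ (w⁻¹).re := by
      rw [Complex.inv_re]
      rw [div_le_div_iff₀ (by norm_num) h5]
      linarith
    nlinarith [hg.nonneg (3 - w)]

theorem re_neg {h : ℂ → ℝ} (hg : Good h) : (Cau h (-3)).re ≤ 0 := by
  have hI := Cau_integrable hg.smooth.continuous hg.compact (-3)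
  have e1 : (Cau h (-3)).re = ∫ w, h (-3 - w) * (w⁻¹).re := by
    rw [Cau_apply]
    have := (Complex.reCLM.integral_comp_comm hI).symm
    simp only [Complex.reCLM_apply] at this
    rw [this]
    congr 1
    ext w
    simp
  rw [e1]
  refine integral_nonpos (fun w => ?_)
  simp only [Pi.zero_apply]
  by_cases hw : h (-3 - w) = 0
  · simp [hw]
  · have hn : ‖-3 - w‖ ≤ 2 := by
      by_contra hcon
      exact hw (hg.supp _ (not_le.1 hcon))
    have h1 : |(-3 - w).re| ≤ 2 := (Complex.abs_re_le_norm _).trans hn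
    have h2 : w.re ≤ 0 := by
      have := (abs_le.1 h1).1
      simp at this
      linarith
    have h6 : (w⁻¹).re ≤ 0 := by
      rw [Complex.inv_re]
      exact div_nonpos_of_nonpos_of_nonneg h2 (Complex.normSq_nonneg w)
    exact mul_nonpos_of_nonneg_of_nonpos (hg.nonneg _) h6

theorem exists_seq : ∃ (h : ℕ → ℂ → ℝ) (ε : ℝ), 0 < ε ∧ (∀ n, Good (h n)) ∧
    (∀ n, Rel (ε * (1 / 2) ^ n) (h n) (h (n + 1))) ∧
    (∀ n, ∃ δ : ℝ, 0 < δ ∧ ∀ z : ℂ, (|z.re - TopologicalSpace.denseSeq ℝ n| < δ ∨
      |z.im - TopologicalSpace.denseSeq ℝ n| < δ) → h (n + 1) z = 0) ∧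
    4 * ε ≤ ∫ z, h 0 z := by
  let φ : ContDiffBump (0:ℂ) := ⟨1, 2, by norm_num, by norm_num⟩
  have hφ : Good (fun z => φ z) := by
    refine ⟨φ.contDiff, fun z hz => ?_, fun z => φ.nonneg, fun z => φ.le_one⟩
    refine φ.zero_of_le_dist ?_
    rw [dist_zero_right]
    exact hz.le
  have hpos : 0 < ∫ z, φ z := φ.integral_pos
  set ε : ℝ := (∫ z, φ z) / 4 with hε
  have hε0 : 0 < ε := by positivity
  have key : ∀ (n : ℕ) (x : {h : ℂ → ℝ // Good h}), ∃ y : {h : ℂ → ℝ // Good h},
      Rel (ε * (1 / 2) ^ n) x.1 y.1 ∧ ∃ δ : ℝ, 0 < δ ∧ ∀ z : ℂ,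
        (|z.re - TopologicalSpace.denseSeq ℝ n| < δ ∨
          |z.im - TopologicalSpace.denseSeq ℝ n| < δ) → y.1 z = 0 := by
    intro n x
    obtain ⟨h', g', r', hδ⟩ := step x.2 (TopologicalSpace.denseSeq ℝ n)
      (ε := ε * (1 / 2) ^ n) (by positivity)
    exact ⟨⟨h', g'⟩, r', hδ⟩
  choose F hF1 hF2 using key
  let s : ℕ → {h : ℂ → ℝ // Good h} := fun n => Nat.rec ⟨_, hφ⟩ (fun n x => F n x) n
  refine ⟨fun n => (s n).1, ε, hε0, fun n => (s n).2, fun n => hF1 n (s n),
    fun n => hF2 n (s n), ?_⟩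
  have : (s 0).1 = fun z => φ z := rfl
  simp only [this]
  rw [hε]
  linarith

/-- A Lipschitz function which is holomorphic near every point with a real or imaginary part in a
dense set, but which is not entire. -/
theorem exists_g : ∃ (g : ℂ → ℂ) (L : ℝ), 0 < L ∧ (∀ z w, ‖g z - g w‖ ≤ L * ‖z - w‖) ∧
    (∃ z, ¬ AnalyticAt ℂ g z) ∧
    (∀ (n : ℕ) (z : ℂ), (z.re = TopologicalSpace.denseSeq ℝ n ∨
      z.im = TopologicalSpace.denseSeq ℝ n) → AnalyticAt ℂ g z) := by
  obtain ⟨h, ε, hε, hG, hR, hS, hm⟩ := exists_seq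
  have hdist : ∀ z n, dist (Cau (h n) z) (Cau (h (n + 1)) z) ≤ ε * (1 / 2) ^ n := fun z n => by
    rw [dist_eq_norm]; exact (hR n).dist z
  have hlim : ∀ z, ∃ y, Tendsto (fun n => Cau (h n) z) atTop (𝓝 y) := fun z =>
    cauchySeq_tendsto_of_complete (cauchySeq_of_le_geometric (1/2) ε (by norm_num) (hdist z))
  choose g hg using hlim
  have hd : ∀ z n, dist (Cau (h n) z) (g z) ≤ ε * (1 / 2) ^ n / (1 - 1 / 2) := fun z n =>
    dist_le_of_le_geometric_of_tendsto (1/2) ε (by norm_num) (hdist z) (hg z) n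
  -- uniform convergence
  have hunif : TendstoUniformly (fun n z => Cau (h n) z) g atTop := by
    rw [Metric.tendstoUniformly_iff]
    intro η hη
    have ht : Tendsto (fun n : ℕ => ε * (1 / 2 : ℝ) ^ n / (1 - 1 / 2)) atTop (𝓝 0) := by
      have := (tendsto_pow_atTop_nhds_zero_of_lt_one (r := (1/2 : ℝ)) (by norm_num)
        (by norm_num)).const_mul ε
      have := this.div_const (1 - 1 / 2 : ℝ)
      simpa using this
    filter_upwards [ht.eventually (gt_mem_nhds hη)] with n hn z
    rw [dist_comm]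
    exact (hd z n).trans_lt hn
  -- uniform bounds
  obtain ⟨A, hA⟩ := bound_of_compact ((hG 0).contD 1) ((hG 0).compactD 1)
  obtain ⟨B, hB⟩ := bound_of_compact ((hG 0).contD Complex.I) ((hG 0).compactD Complex.I)
  obtain ⟨K, hK⟩ := bound_of_compact (hG 0).smooth.continuous (hG 0).compact
  have hα : ∀ n z, ‖Cau (fun w => fderiv ℝ (h n) w 1) z‖ ≤
      A + 2 * Real.pi * (1 - h n z) + 2 * ε * (1 - (1 / 2) ^ n) := by
    intro n
    induction n with
    | zero =>
      intro z
      have := hA z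
      have h2 : 0 ≤ 2 * Real.pi * (1 - h 0 z) :=
        mul_nonneg (by positivity) (by linarith [(hG 0).le_one z])
      simp only [pow_zero, sub_self, mul_zero, add_zero]
      linarith
    | succ n ih =>
      intro z
      have h1 := ih z
      have h2 := (hR n).one z
      have h3 : ‖Cau (fun w => fderiv ℝ (h (n+1)) w 1) z‖ ≤
          ‖Cau (fun w => fderiv ℝ (h n) w 1) z‖ +
          ‖Cau (fun w => fderiv ℝ (h n) w 1) z - Cau (fun w => fderiv ℝ (h (n+1)) w 1) z‖ := by
        have := norm_sub_le (Cau (fun w => fderiv ℝ (h n) w 1) z)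
          (Cau (fun w => fderiv ℝ (h n) w 1) z - Cau (fun w => fderiv ℝ (h (n+1)) w 1) z)
        simpa using this
      rw [pow_succ]
      linarith
  have hβ : ∀ n z, ‖Cau (fun w => fderiv ℝ (h n) w Complex.I) z‖ ≤
      B + 2 * Real.pi * (1 - h n z) + 2 * ε * (1 - (1 / 2) ^ n) := by
    intro n
    induction n with
    | zero =>
      intro z
      have := hB z
      have h2 : 0 ≤ 2 * Real.pi * (1 - h 0 z) :=
        mul_nonneg (by positivity) (by linarith [(hG 0).le_one z])
      simp only [pow_zero, sub_self, mul_zero, add_zero]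
      linarith
    | succ n ih =>
      intro z
      have h1 := ih z
      have h2 := (hR n).eye z
      have h3 : ‖Cau (fun w => fderiv ℝ (h (n+1)) w Complex.I) z‖ ≤
          ‖Cau (fun w => fderiv ℝ (h n) w Complex.I) z‖ +
          ‖Cau (fun w => fderiv ℝ (h n) w Complex.I) z -
            Cau (fun w => fderiv ℝ (h (n+1)) w Complex.I) z‖ := by
        have := norm_sub_le (Cau (fun w => fderiv ℝ (h n) w Complex.I) z)
          (Cau (fun w => fderiv ℝ (h n) w Complex.I) z -
            Cau (fun w => fderiv ℝ (h (n+1)) w Complex.I) z)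
        simpa using this
      rw [pow_succ]
      linarith
  set L : ℝ := max A B + 2 * Real.pi + 2 * ε with hLdef
  have hA0 : 0 ≤ A := (norm_nonneg _).trans (hA 0)
  have hL0 : 0 < L := by
    have : 0 ≤ max A B := hA0.trans (le_max_left _ _)
    positivity
  have hpow : ∀ n : ℕ, (0:ℝ) ≤ (1/2)^n := fun n => by positivity
  have hα' : ∀ n z, ‖Cau (fun w => fderiv ℝ (h n) w 1) z‖ ≤ L := by
    intro n z
    refine (hα n z).trans ?_
    have h1 : A ≤ max A B := le_max_left _ _
    have h2 : 2 * Real.pi * (1 - h n z) ≤ 2 * Real.pi := by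
      have := (hG n).nonneg z
      nlinarith [Real.pi_pos]
    have h3 : 2 * ε * (1 - (1 / 2) ^ n) ≤ 2 * ε := by
      nlinarith [hpow n]
    linarith
  have hβ' : ∀ n z, ‖Cau (fun w => fderiv ℝ (h n) w Complex.I) z‖ ≤ L := by
    intro n z
    refine (hβ n z).trans ?_
    have h1 : B ≤ max A B := le_max_right _ _
    have h2 : 2 * Real.pi * (1 - h n z) ≤ 2 * Real.pi := by
      have := (hG n).nonneg z
      nlinarith [Real.pi_pos]
    have h3 : 2 * ε * (1 - (1 / 2) ^ n) ≤ 2 * ε := by
      nlinarith [hpow n]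
    linarith
  have hlip : ∀ z w, ‖g z - g w‖ ≤ 2 * L * ‖z - w‖ := by
    intro z w
    have ht : Tendsto (fun n => ‖Cau (h n) z - Cau (h n) w‖) atTop (𝓝 ‖g z - g w‖) :=
      ((hg z).sub (hg w)).norm
    exact le_of_tendsto' ht (fun n => lip_of_bounds (hG n) (hα' n) (hβ' n) z w)
  have hmass : ∀ n, (∫ z, h 0 z) ≤ (∫ z, h n z) + 2 * ε * (1 - (1 / 2) ^ n) := by
    intro n
    induction n with
    | zero => simp
    | succ n ih =>
      have := (hR n).mass
      rw [pow_succ]
      linarith
  have hmass2 : ∀ n, 2 * ε ≤ ∫ z, h n z := by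
    intro n
    have h1 := hmass n
    have h3 : 2 * ε * (1 - (1 / 2) ^ n) ≤ 2 * ε := by
      nlinarith [hpow n]
    linarith
  refine ⟨g, 2 * L, by positivity, hlip, ?_, ?_⟩
  · by_contra hcon
    push Not at hcon
    have hdiff : Differentiable ℂ g := fun z => (hcon z).differentiableAt
    have hbdd : Bornology.IsBounded (range g) := by
      rw [isBounded_iff_forall_norm_le]
      refine ⟨K + 2 * ε, ?_⟩
      rintro _ ⟨z, rfl⟩
      have h1 := hd z 0
      rw [dist_eq_norm] at h1
      have h2 := hK z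
      have h3 : ‖g z‖ ≤ ‖Cau (h 0) z‖ + ‖Cau (h 0) z - g z‖ := by
        have := norm_sub_le (Cau (h 0) z) (Cau (h 0) z - g z)
        simpa using this
      norm_num at h1
      linarith
    have hconst := hdiff.apply_eq_apply_of_bounded hbdd 3 (-3)
    have hp : (1 / 25) * (2 * ε) ≤ (g 3).re := by
      have ht : Tendsto (fun n => (Cau (h n) 3).re) atTop (𝓝 (g 3).re) :=
        (Complex.continuous_re.tendsto _).comp (hg 3)
      refine ge_of_tendsto' ht (fun n => le_trans ?_ (re_pos (hG n)))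
      have := hmass2 n
      linarith
    have hn : (g (-3)).re ≤ 0 := by
      have ht : Tendsto (fun n => (Cau (h n) (-3)).re) atTop (𝓝 (g (-3)).re) :=
        (Complex.continuous_re.tendsto _).comp (hg (-3))
      exact le_of_tendsto' ht (fun n => re_neg (hG n))
    rw [hconst] at hp
    linarith
  · intro n z hz
    obtain ⟨δ, hδ, hzero⟩ := hS n
    -- the functions vanish on the strips from step n+1 on
    have hzero' : ∀ m, n + 1 ≤ m → ∀ z : ℂ, (|z.re - TopologicalSpace.denseSeq ℝ n| < δ ∨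
        |z.im - TopologicalSpace.denseSeq ℝ n| < δ) → h m z = 0 := by
      intro m hm z hz
      induction m, hm using Nat.le_induction with
      | base => exact hzero z hz
      | succ m hm ih =>
        have h1 := (hR m).le z
        have h2 := (hG (m+1)).nonneg z
        linarith
    set U : Set ℂ := {z : ℂ | |z.re - TopologicalSpace.denseSeq ℝ n| < δ ∨
        |z.im - TopologicalSpace.denseSeq ℝ n| < δ} with hU
    have hUo : IsOpen U := by
      have o1 : IsOpen {z : ℂ | |z.re - TopologicalSpace.denseSeq ℝ n| < δ} :=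
        isOpen_lt (by fun_prop) continuous_const
      have o2 : IsOpen {z : ℂ | |z.im - TopologicalSpace.denseSeq ℝ n| < δ} :=
        isOpen_lt (by fun_prop) continuous_const
      exact o1.union o2
    have hzU : z ∈ U := by
      rcases hz with hz | hz
      · left; rw [hz]; simpa using hδ
      · right; rw [hz]; simpa using hδ
    have hdU : DifferentiableOn ℂ g U := by
      refine TendstoLocallyUniformlyOn.differentiableOn (F := fun n z => Cau (h n) z) (φ := atTop)
        hunif.tendstoLocallyUniformly.tendstoLocallyUniformlyOn ?_ hUo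
      filter_upwards [eventually_ge_atTop (n + 1)] with m hm w hw
      exact (diff_at (hG m) (hzero' m hm w hw)).differentiableWithinAt
    exact hdU.analyticAt (hUo.mem_nhds hzU)

end Pool.Agent.H714Q
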